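import Mathlib
import Pool.Agent.Helper78_ACIT.Circuit
import Pool.Agent.Helper12_WBX.Walk

set_option autoImplicit false

/-! Definitions of the squad SXF (subexponential identity test for formulas). -/

namespace Pool.Agent.SXF

open MvPolynomial Pool.Agent.Helper78_ACIT Pool.Agent.WBX

/-- The number of the interval of the index `i`: the number of cuts `c r ≤ i`. -/
def block {K : ℕ} (c : Fin K → ℕ) (i : ℕ) : Fin (K + 1) :=
  ⟨(Finset.univ.filter fun r => c r ≤ i).card,
    Nat.lt_succ_of_le ((Finset.card_filter_le _ _).trans (by simp))⟩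

/-- The point `x_i = z_B + ∑ j < T, X_j ((i + 1) y_B) ^ j` (`i < n`, `B` the interval of `i`;
`x_i = 0` for `i ≥ n`). -/
def point {A : Type} [CommRing A] {K T : ℕ} (n : ℕ) (c : Fin K → ℕ) (X : Fin T → A)
    (y z : Fin (K + 1) → A) (i : ℕ) : A :=
  if i < n then z (block c i) + ∑ j : Fin T, X j * (((i : A) + 1) * y (block c i)) ^ (j : ℕ) else 0

/-- The polynomial obtained from `F` by the substitution `x_i = e_i` for `i ∈ B`. -/
noncomputable def freeze {E : Type} [Field E] (B : Finset ℕ) (e : ℕ → E) (F : MvPolynomial ℕ E) :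
    MvPolynomial ℕ E :=
  aeval (fun i => if i ∈ B then C (e i) else X i) F

/-- `F` is a polynomial in `x_0, ..., x_(n-1)`, and there are weights `w_i` (`w_i ≥ 1` if `F` contains
`x_i`) with sum at most `s` such that for every set `B` of variables and all values `e` of the
variables in `B` the product of `F` and a power of `F(x_B = e)` is a polynomial in `x_i`, `i ∈ B`, and
in `t` polynomials in the other variables, with `t` at most `τ` of the weight of `B`. -/
def IsNarrow (E : Type) [Field E] (τ : ℕ → ℕ) (n s : ℕ) (F : MvPolynomial ℕ E) : Prop :=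
  F.vars ⊆ Finset.range n ∧ ∃ w : ℕ → ℕ, ∑ i ∈ Finset.range n, w i ≤ s ∧ (∀ i ∈ F.vars, 1 ≤ w i) ∧
    ∀ (B : Finset ℕ) (e : ℕ → E), B ⊆ Finset.range n →
      ∃ (t N : ℕ) (h : Fin t → MvPolynomial ℕ E),
        t ≤ τ (∑ i ∈ B, w i) ∧ (∀ l, Disjoint (h l).vars B) ∧
        freeze B e F ^ N * F ∈ Algebra.adjoin E (Set.range h ∪ X '' (B : Set ℕ))

/-- The number of times the gate `j` is used by other gates. -/
def fanOut (G : List Gate) (j : ℕ) : ℕ := (G.flatMap refs).count j

/-- The number of occurrences of the variable `x_v`: the sum of the fan-outs of the gates labelled by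
`x_v`, where the fan-out `0` is counted as `1`. -/
def load (G : List Gate) (v : ℕ) : ℕ :=
  ∑ j ∈ Finset.range G.length, if G.getD j .zero = .var v then max 1 (fanOut G j) else 0

/-- The number of extra wires: the sum of `fan-out - 1` over all sums, differences and products which
are used more than once.  The circuit is a formula if it is `0`. -/
def extra (G : List Gate) : ℕ :=
  ∑ j ∈ Finset.range G.length, if refs (G.getD j .zero) = [] then 0 else fanOut G j - 1

/-- The polynomial computed by `G`, with the values `e_i` for `x_i`, `i ≥ n`. -/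
noncomputable def polyC {E : Type} [Field E] (n : ℕ) (e : ℕ → E) (G : List Gate) :
    MvPolynomial ℕ E :=
  out (fun i => if i < n then X i else C (e i)) G

/-- The matrix `A + ∑ l, x_(ι l) u_l v_lᵀ`. -/
noncomputable def pencil {E : Type} [Field E] {N s : ℕ} (A : Matrix (Fin N) (Fin N) E)
    (ι : Fin s → ℕ) (u v : Fin s → Fin N → E) : Matrix (Fin N) (Fin N) (MvPolynomial ℕ E) :=
  Matrix.of fun a b => C (A a b) + ∑ l, X (ι l) * C (u l a * v l b)

/-- The value of the circuit `G` modulo `p` at the point with cuts `c` and seeds `ξ`, `y`, `z`. -/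
def testValue (n p N K T : ℕ) (c : Fin K → Fin (n + 1)) (ξ : Fin T → Fin N)
    (y z : Fin (K + 1) → Fin N) (G : List Gate) : ZMod p :=
  out (point n (fun r => (c r : ℕ)) (fun j => ((ξ j : ℕ) : ZMod p)) (fun B => ((y B : ℕ) : ZMod p))
    (fun B => ((z B : ℕ) : ZMod p))) G

end Pool.Agent.SXF
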