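import Mathlib
import Pool.Agent.SXF.Defs
import Pool.Agent.Helper12_CMP.Transfer

set_option autoImplicit false

/-! Statements of the modules of the squad SXF (subexponential identity test for formulas). -/

namespace Pool.Agent.SXF

open MvPolynomial Pool.Agent.Helper78_ACIT Pool.Agent.WBX

/-- VDM. A vector with at most `b` nonzero entries, considered as a sparse polynomial, does not vanish at
`b` different positive integers unless it is zero (any field of characteristic zero; generalised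
Vandermonde determinant: over `ℚ` by `Mathlib.Algebra.Polynomial.RuleOfSigns`,
`roots_countP_pos_le_signVariations`, so the square integer matrix `a_i ^ j`, `j ∈ S`, has determinant
nonzero, also in `K`). -/
def VdmStmt : Prop :=
  ∀ (K : Type) [Field K] [CharZero K] (b T : ℕ) (a : Fin b → ℕ), Function.Injective a → (∀ i, 1 ≤ a i) →
    ∀ (u : Fin T → K) (S : Finset (Fin T)), S.card ≤ b → (∀ j, j ∉ S → u j = 0) →
      (∀ i, ∑ j : Fin T, u j * (a i : K) ^ (j : ℕ) = 0) → u = 0

/-- INJ. Let `V` be a subspace of `K ^ T` of dimension at most `b` and `p_0, ..., p_(T-1) ∈ K[y]` such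
that all coefficient vectors lie in `V`.  If `∑ j, p_j (a_i y) ^ j = 0` for `b` different positive
integers `a_i`, then all `p_j` are zero.  (Proof: let `N` be minimal such that `u_j :=
coeff (N - j) p_j` (`j ≤ N`) is not zero for all `j`.  Then `∑ u_j a_i ^ j = 0`, and for each `j` with
`u_j ≠ 0` the vector `coeff (N - j) p` has its first nonzero entry in place `j`; so these vectors are
linearly independent and there are at most `b` of them; VDM.) -/
def InjStmt : Prop :=
  ∀ (K : Type) [Field K] [CharZero K] (b T : ℕ) (a : Fin b → ℕ), Function.Injective a → (∀ i, 1 ≤ a i) →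
    ∀ V : Submodule K (Fin T → K), Module.finrank K V ≤ b →
      ∀ p : Fin T → Polynomial K, (∀ m, (fun j => (p j).coeff m) ∈ V) →
        (∀ i, ∑ j : Fin T, p j * (Polynomial.C (a i : K) * Polynomial.X) ^ (j : ℕ) = 0) → p = 0

/-- KVE. A derivation `∑ j, v_j ∂/∂X_j` with coefficients in `E[X][y]` which kills `h_1, ..., h_t` and all
of the forms `∑ j, X_j (a_i y) ^ j`, except one.  (Kernel of the Jacobian matrix over the fraction
field `K` of `E[X]`, `b` independent vectors `w` in it, `Matrix.exists_mulVec_eq_zero_iff` and INJ for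
the square matrix `A w` over `K[y]`; `v = w adj(A w) e_(i0)`; clear denominators.) -/
def KveStmt : Prop :=
  ∀ (E : Type) [Field E] [CharZero E] (t b T : ℕ), t + b ≤ T → ∀ (a : Fin b → ℕ),
    Function.Injective a → (∀ i, 1 ≤ a i) → ∀ (h : Fin t → MvPolynomial (Fin T) E) (i0 : Fin b),
    ∃ (v : Fin T → Polynomial (MvPolynomial (Fin T) E)) (q : Polynomial (MvPolynomial (Fin T) E)),
      q ≠ 0 ∧ (∀ l, ∑ j, v j * Polynomial.C (pderiv j (h l)) = 0) ∧
      ∀ i, ∑ j : Fin T, v j * (Polynomial.C (a i : MvPolynomial (Fin T) E) * Polynomial.X) ^ (j : ℕ) =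
        if i = i0 then q else 0

/-- STP. Let `F` be a polynomial in `Z_0, ..., Z_(b-1)` with coefficients in `E[h_1, ..., h_t]`,
`h_l ∈ E[X_0, ..., X_(T-1)]`, `T ≥ t + b`.  Then `F` does not vanish at
`Z_i = ∑ j, X_j (a_i y) ^ j`.  (Induction on the degree; apply the derivation of KVE, extended
to `E[X][y]` coefficientwise, to `F(...) = 0`.) -/
def StpStmt : Prop :=
  ∀ (E : Type) [Field E] [CharZero E] (t b T : ℕ), t + b ≤ T → ∀ (a : Fin b → ℕ),
    Function.Injective a → (∀ i, 1 ≤ a i) → ∀ (h : Fin t → MvPolynomial (Fin T) E)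
    (F : MvPolynomial (Fin b) (MvPolynomial (Fin T) E)),
    (∀ m, F.coeff m ∈ Algebra.adjoin E (Set.range h)) → F ≠ 0 →
    eval₂ (Polynomial.C : MvPolynomial (Fin T) E →+* _)
      (fun i => ∑ j : Fin T, Polynomial.C (X j) *
        (Polynomial.C (a i : MvPolynomial (Fin T) E) * Polynomial.X) ^ (j : ℕ)) F ≠ 0

/-- The mixed point: `x_i = z_B + ∑ j, X_j ((i + 1) y_B) ^ j` if the block `B = k i` of `i` is less than
`r`, and `x_i = e_i` otherwise; `X_0, ..., X_(T-1)` are variables. -/
noncomputable def mixed {E : Type} [Field E] {T : ℕ} (k : ℕ → ℕ) (r : ℕ) (y z e : ℕ → E) (i : ℕ) :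
    MvPolynomial (Fin T) E :=
  if k i < r then C (z (k i)) + ∑ j : Fin T, X j * (C (((i : E) + 1) * y (k i))) ^ (j : ℕ)
  else C (e i)

/-- BLK. One block: if `F` does not vanish at a mixed point for `r`, then it does not vanish at a mixed
point for `r + 1`, if the block `r` is light or has only one variable. -/
def BlkStmt : Prop :=
  ∀ (E : Type) [Field E] [CharZero E] (τ : ℕ → ℕ) (n m T : ℕ) (F : MvPolynomial ℕ E) (w : ℕ → ℕ)
    (k : ℕ → ℕ) (r : ℕ), Monotone τ → τ m + m ≤ T → 1 ≤ T → F.vars ⊆ Finset.range n →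
    (∀ i ∈ F.vars, 1 ≤ w i) →
    (∀ (B : Finset ℕ) (e : ℕ → E), B ⊆ Finset.range n →
      ∃ (t N : ℕ) (h : Fin t → MvPolynomial ℕ E),
        t ≤ τ (∑ i ∈ B, w i) ∧ (∀ l, Disjoint (h l).vars B) ∧
        freeze B e F ^ N * F ∈ Algebra.adjoin E (Set.range h ∪ X '' (B : Set ℕ))) →
    ((∑ i ∈ (Finset.range n).filter fun i => k i = r, w i) ≤ m ∨
      ∃ i0, ∀ i < n, k i = r → i = i0) →
    ∀ y z e : ℕ → E, aeval (mixed (T := T) k r y z e) F ≠ 0 →
      ∃ y' z' e' : ℕ → E, aeval (mixed (T := T) k (r + 1) y' z' e') F ≠ 0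

/-- GRE. The greedy partition into `2 (s / (m + 1)) + 1` intervals. -/
def GreStmt : Prop :=
  ∀ (n s m : ℕ) (w : ℕ → ℕ), ∑ i ∈ Finset.range n, w i ≤ s →
    ∃ k : ℕ → ℕ, Monotone k ∧ (∀ i, k i ≤ 2 * (s / (m + 1))) ∧
      ∀ r, (∑ i ∈ (Finset.range n).filter fun i => k i = r, w i) ≤ m ∨
        ∃ i0, ∀ i < n, k i = r → i = i0

/-- CUT. A partition into intervals is given by cuts. -/
def CutStmt : Prop :=
  ∀ (n K : ℕ) (k : ℕ → ℕ), Monotone k → (∀ i, k i ≤ K) →
    ∃ c : Fin K → ℕ, (∀ r, c r ≤ n) ∧ ∀ i < n, (block c i : ℕ) = k i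

/-- HIT. The generator hits all narrow polynomials.  (From BLK, GRE, CUT: induction over the blocks, then
values for `X`.) -/
def HitStmt : Prop :=
  ∀ (E : Type) [Field E] [CharZero E] (τ : ℕ → ℕ) (n s m K T : ℕ), Monotone τ → τ m + m ≤ T →
    1 ≤ T → 2 * (s / (m + 1)) ≤ K →
    ∀ F : MvPolynomial ℕ E, IsNarrow E τ n s F → F ≠ 0 →
      ∃ c : Fin K → Fin (n + 1), ∃ (ξ : Fin T → E) (y z : Fin (K + 1) → E),
        eval (point n (fun r => (c r : ℕ)) ξ y z) F ≠ 0

/-- The gates that depend on a variable of `B`. -/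
def IsTouched (G : List Gate) (B S : Finset ℕ) : Prop :=
  ∀ j, j ∈ S ↔ j < G.length ∧
    ((∃ v ∈ B, G.getD j .zero = .var v) ∨ ∃ a ∈ refs (G.getD j .zero), a ∈ S)

/-- The sums, differences and products both inputs of which are in `S`. -/
def double (G : List Gate) (S : Finset ℕ) : Finset ℕ :=
  (Finset.range G.length).filter fun j =>
    refs (G.getD j .zero) ≠ [] ∧ ∀ a ∈ refs (G.getD j .zero), a ∈ S

/-- CNT. The number of gates with two touched inputs.  (Let `v` be the number of touched gates which are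
not variables, `d` the number of double gates: `v + d` is the number of references to touched gates, that
is the sum of the fan-outs of the touched gates; subtract `v`.) -/
def CntStmt : Prop :=
  ∀ (G : List Gate) (B S : Finset ℕ), WellFormed G → IsTouched G B S →
    (double G S).card ≤ ∑ v ∈ B, load G v + extra G

/-- CIA. Interface of circuits, algebraic part.  (Visit the gates in their order and represent each
touched gate as `A c + A'` with `A`, `A'` free of `x_i`, `i ∈ B`, and `c` in the algebra generated so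
far; a gate with one touched input keeps `c`; only at a double gate add the `A`, `A'` of its two inputs
to the generators (then the gate lies in the algebra, `c` := the gate), and at the end those of the
output.) -/
def CiaStmt : Prop :=
  ∀ (E : Type) [Field E] (n : ℕ) (e : ℕ → E) (G : List Gate) (B S : Finset ℕ), WellFormed G →
    B ⊆ Finset.range n → IsTouched G B S →
    ∃ (t : ℕ) (h : Fin t → MvPolynomial ℕ E), t ≤ 4 * (double G S).card + 2 ∧
      (∀ l, Disjoint (h l).vars B) ∧
      polyC n e G ∈ Algebra.adjoin E (Set.range h ∪ X '' (B : Set ℕ))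

/-- CIR. Interface of circuits.  (Existence of the set of the touched gates, CNT, CIA; `N = 0`;
the weights are `load G v`.) -/
def CirStmt : Prop :=
  ∀ (E : Type) [Field E] (n : ℕ) (e : ℕ → E) (G : List Gate), WellFormed G →
    IsNarrow E (fun m => 4 * (m + extra G) + 2) n (∑ v ∈ Finset.range n, load G v) (polyC n e G)

/-- DET. Interface of determinants.  (If `d = det M(e) ≠ 0`, then over the fraction field
`det M = d det(1 + D V M(e)⁻¹ U)`, so `d ^ m det M = d det(d + D V adj(M(e)) U)`, with `m` the number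
of `l` with `ι l ∈ B`, and `D` the diagonal matrix of the `x_(ι l) - e_(ι l)`.) -/
def DetStmt : Prop :=
  ∀ (E : Type) [Field E] (n N s : ℕ) (A : Matrix (Fin N) (Fin N) E) (ι : Fin s → ℕ)
    (u v : Fin s → Fin N → E), (∀ l, ι l < n) →
    IsNarrow E (fun m => m ^ 2 + 1) n s (pencil A ι u v).det

/-- IHT. A small integer point on the generator where a factor does not vanish (as
`Pool.Agent.CMP.int_hit_of`). -/
def IhtStmt : Prop :=
  ∀ (E : Type) [Field E] [CharZero E] (n D K T : ℕ) (P : MvPolynomial ℕ ℤ), P.totalDegree ≤ D →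
    1 ≤ T → ∀ Q : MvPolynomial ℕ E, ∀ c : Fin K → ℕ,
    (∃ (ξ : Fin T → E) (y z : Fin (K + 1) → E), eval (point n c ξ y z) Q ≠ 0) →
    map (Int.castRingHom E) P ∣ Q →
    ∃ (ξ : Fin T → ℕ) (y z : Fin (K + 1) → ℕ), (∀ j, ξ j ≤ D * T) ∧ (∀ B, y B ≤ D * T) ∧
      (∀ B, z B ≤ D * T) ∧
      eval (point n c (fun j => (ξ j : ℤ)) (fun B => (y B : ℤ)) (fun B => (z B : ℤ))) P ≠ 0

/-- SIZ. The size of the coordinates. -/
def SizStmt : Prop :=
  ∀ (n D K T : ℕ) (c : Fin K → ℕ) (ξ : Fin T → ℕ) (y z : Fin (K + 1) → ℕ),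
    (∀ j, ξ j ≤ D * T) → (∀ B, y B ≤ D * T) → (∀ B, z B ≤ D * T) → ∀ i,
    (point n c (fun j => (ξ j : ℤ)) (fun B => (y B : ℤ)) (fun B => (z B : ℤ)) i).natAbs ≤
      2 ^ ((T + 2) * (n * D * T + T + 2))

/-- TST. The test for circuits which compute divisors of polynomials of a class that is hit. -/
def TstStmt : Prop :=
  ∀ (E : Type) [Field E] [CharZero E] (n K T : ℕ), 1 ≤ T → ∀ P : MvPolynomial ℕ E → Prop,
    (∀ F, P F → F ≠ 0 → ∃ c : Fin K → Fin (n + 1), ∃ (ξ : Fin T → E) (y z : Fin (K + 1) → E),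
      eval (point n (fun r => (c r : ℕ)) ξ y z) F ≠ 0) →
    ∀ (D b : ℕ) (G : List Gate), WellFormed G →
      (poly G = 0 ∨ ((poly G).totalDegree ≤ D ∧ Pool.Agent.UO.length (poly G) ≤ 2 ^ b ∧
        ∃ F : MvPolynomial ℕ E, P F ∧ F ≠ 0 ∧ map (Int.castRingHom E) (poly G) ∣ F)) →
      (G ∈ ACIT ↔ ∀ p, p.Prime → p ≤ 64 * (b + D * ((T + 2) * (n * D * T + T + 2)) + 1) ^ 2 →
        ∀ (c : Fin K → Fin (n + 1)) (ξ : Fin T → Fin (D * T + 1))
          (y z : Fin (K + 1) → Fin (D * T + 1)), testValue n p (D * T + 1) K T c ξ y z G = 0)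

/-- POT. In a formula a subadditive function of the gates is bounded by the sum over the leaves.
(Induction over the prefixes: the sum of `μ j` over all sums, differences and products `j < p` which are
not used by the gates `< p` is at most the sum over all leaves `j < p` of the number of uses of `j` by the
gates `< p` times `μ j`.) -/
def PotStmt : Prop :=
  ∀ (G : List Gate) (μ : ℕ → ℕ), WellFormed G → extra G = 0 →
    (∀ j < G.length, refs (G.getD j .zero) ≠ [] → μ j ≤ ((refs (G.getD j .zero)).map μ).sum) →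
    ∀ i < G.length, μ i ≤ ∑ j ∈ Finset.range G.length,
      if refs (G.getD j .zero) = [] then max 1 (fanOut G j) * μ j else 0

/-- DEG. The degree of a formula.  (POT with the degrees of the gates.) -/
def DegStmt : Prop :=
  ∀ (G : List Gate) (n : ℕ), WellFormed G → extra G = 0 → (∀ v, Gate.var v ∈ G → v < n) →
    (poly G).totalDegree ≤ ∑ v ∈ Finset.range n, load G v

/-- VAL. The values of the gates of a formula.  (POT with `Nat.clog (M + 1) (|value| + 1)`.) -/
def ValStmt : Prop :=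
  ∀ (G : List Gate) (M : ℕ) (x : ℕ → ℤ), WellFormed G → extra G = 0 → 1 ≤ M →
    (∀ i, (x i).natAbs ≤ M) → ∀ a ∈ values x G, a.natAbs ≤ (M + 1) ^ (2 * G.length)

/-- FML. The test for formulas.  (HIT for `polyC n e G`, `E = ℚ`, `m = r`, `T = 5 r + 2`,
`K = 2 r - 2`, and IHT, DEG, VAL, SIZ.) -/
def FmlStmt : Prop :=
  ∀ (n r : ℕ) (G : List Gate), WellFormed G → extra G = 0 → (∀ v, Gate.var v ∈ G → v < n) → 1 ≤ r →
    ∑ v ∈ Finset.range n, load G v ≤ r ^ 2 →
    (G ∈ ACIT ↔ ∀ (c : Fin (2 * r - 2) → Fin (n + 1)) (ξ : Fin (5 * r + 2) → Fin (r ^ 2 * (5 * r + 2) + 1))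
      (y z : Fin (2 * r - 2 + 1) → Fin (r ^ 2 * (5 * r + 2) + 1)),
      out (point n (fun s => (c s : ℕ)) (fun j => ((ξ j : ℕ) : ℤ)) (fun B => ((y B : ℕ) : ℤ))
        (fun B => ((z B : ℕ) : ℤ))) G = 0) ∧
    ∀ (c : Fin (2 * r - 2) → Fin (n + 1)) (ξ : Fin (5 * r + 2) → Fin (r ^ 2 * (5 * r + 2) + 1))
      (y z : Fin (2 * r - 2 + 1) → Fin (r ^ 2 * (5 * r + 2) + 1)),
      ∀ a ∈ values (point n (fun s => (c s : ℕ)) (fun j => ((ξ j : ℕ) : ℤ)) (fun B => ((y B : ℕ) : ℤ))
        (fun B => ((z B : ℕ) : ℤ))) G,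
        a.natAbs ≤ 2 ^ (2 * G.length * ((5 * r + 4) * (n * r ^ 2 * (5 * r + 2) + 5 * r + 4) + 1))

end Pool.Agent.SXF
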