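import Mathlib
import Pool.Agent.SXF.Defs

set_option autoImplicit false

/-! Definitions of the second wave of the squad SXF: a generator without cuts. -/

namespace Pool.Agent.SXF

open MvPolynomial Pool.Agent.Helper78_ACIT Pool.Agent.WBX

/-- The polynomial `∑ l ≤ i, ∏ k ≤ n, k ≠ l, (c - k)`: at the integers `c = 0, ..., n` it vanishes if
and only if `c > i`, and its value does not depend on `i` if `c ≤ i ≤ n`. -/
def step {A : Type} [CommRing A] (n i : ℕ) (c : A) : A :=
  ∑ l ∈ Finset.range (i + 1), ∏ k ∈ (Finset.range (n + 1)).erase l, (c - (k : A))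

/-- The generator `x_i = Z_i + ∑ j < T, ξ_j ((i + 1) Y_i) ^ j` (`i < n`; `x_i = 0` for `i ≥ n`) with
`Y_i = ∑ r < R, y_r step n i c_r`, `Z_i = ∑ r < R, z_r step n i c_r`. -/
def gen {A : Type} [CommRing A] {R T : ℕ} (n : ℕ) (c y z : Fin R → A) (ξ : Fin T → A) (i : ℕ) : A :=
  if i < n then ∑ r, z r * step n i (c r) +
    ∑ j : Fin T, ξ j * (((i : A) + 1) * ∑ r, y r * step n i (c r)) ^ (j : ℕ) else 0

/-- The polynomial computed by the gate `j` of `G`, with the values `e_i` for `x_i`, `i ≥ n`. -/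
noncomputable def gateC {E : Type} [Field E] (n : ℕ) (e : ℕ → E) (G : List Gate) (j : ℕ) :
    MvPolynomial ℕ E :=
  (values (fun i => if i < n then X i else C (e i)) G).getD j 0

/-- `F` is a polynomial in `x_0, ..., x_(n-1)` of one of the following two kinds, for some `s` and `m`
with `2 ⌊s / (m + 1)⌋ < R`.

(a) `F = P(g_1, ..., g_q)`, where `P` is an arbitrary polynomial over `E` and `g_1, ..., g_q` are
computed by gates of a circuit `G` over `E` (a circuit in which the `x_i`, `i ≥ n`, are replaced by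
elements `e_i` of `E`) with at most `s` occurrences of the variables `x_0, ..., x_(n-1)`, and
`5 m + 4 k + 2 q ≤ T`, where `k` is the number of extra wires of `G`; `k = 0` for formulas.

(b) `F = det(A + ∑ l < s, x_(ι l) u_l v_lᵀ)` with a matrix `A` and vectors `u_l`, `v_l` over `E`, of any
size, and `m ^ 2 + m + 1 ≤ T`. -/
def IsSmall (E : Type) [Field E] (n R T : ℕ) (F : MvPolynomial ℕ E) : Prop :=
  ∃ s m : ℕ, 2 * (s / (m + 1)) < R ∧
    ((∃ (e : ℕ → E) (G : List Gate) (q : ℕ) (J : Fin q → ℕ) (P : MvPolynomial (Fin q) E),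
      WellFormed G ∧ ∑ v ∈ Finset.range n, load G v ≤ s ∧ 5 * m + 4 * extra G + 2 * q ≤ T ∧
      F = aeval (fun a => gateC n e G (J a)) P) ∨
    ∃ (N : ℕ) (A : Matrix (Fin N) (Fin N) E) (ι : Fin s → ℕ) (u v : Fin s → Fin N → E),
      (∀ l, ι l < n) ∧ m ^ 2 + m + 1 ≤ T ∧ F = (pencil A ι u v).det)

/-- The value of the circuit `G` modulo `p` at the point of the generator with the seeds `c`, `y`, `z`,
`ξ`. -/
def genValue (n p N R T : ℕ) (c y z : Fin R → Fin N) (ξ : Fin T → Fin N) (G : List Gate) : ZMod p :=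
  out (gen n (fun r => ((c r : ℕ) : ZMod p)) (fun r => ((y r : ℕ) : ZMod p))
    (fun r => ((z r : ℕ) : ZMod p)) (fun j => ((ξ j : ℕ) : ZMod p))) G

end Pool.Agent.SXF
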