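import Mathlib
import Pool.Agent.SXF.Defs2
import Pool.Agent.SXF.Stmts

set_option autoImplicit false

/-! Statements of the second wave of the squad SXF. -/

namespace Pool.Agent.SXF

open MvPolynomial Pool.Agent.Helper78_ACIT Pool.Agent.WBX

/-- STE. The values of `step` at the integers. -/
def SteStmt : Prop :=
  ∀ (E : Type) [Field E] [CharZero E] (n a : ℕ), a ≤ n →
    ∏ k ∈ (Finset.range (n + 1)).erase a, ((a : E) - (k : E)) ≠ 0 ∧
    ∀ i ≤ n, step n i (a : E) =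
      if a ≤ i then ∏ k ∈ (Finset.range (n + 1)).erase a, ((a : E) - (k : E)) else 0

/-- HI2. The generator hits all narrow polynomials.  (As HIT, without CUT: the blocks are given by a
monotone `k : ℕ → ℕ` with values `< R`; take `c_r` = the number of `i < n` with `k i < r`, so `c_r ≤ i`
if and only if `r ≤ k i` (`i < n`), and `y_r := (y(r) - y(r - 1)) / λ(c_r)`, `y_0 := y(0) / λ(c_0)`.) -/
def Hi2Stmt : Prop :=
  ∀ (E : Type) [Field E] [CharZero E] (τ : ℕ → ℕ) (n s m R T : ℕ), Monotone τ → τ m + m ≤ T →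
    1 ≤ T → 2 * (s / (m + 1)) < R →
    ∀ F : MvPolynomial ℕ E, IsNarrow E τ n s F → F ≠ 0 →
      ∃ (c y z : Fin R → E) (ξ : Fin T → E), eval (gen n c y z ξ) F ≠ 0

/-- CIQ. Interface of several gates of a circuit and of a polynomial in them (`CNT`,
`Pool.Agent.SXF.H80.ciaQ`; as CIR). -/
def CiqStmt : Prop :=
  ∀ (E : Type) [Field E] (n : ℕ) (e : ℕ → E) (G : List Gate) (q : ℕ) (J : Fin q → ℕ)
    (P : MvPolynomial (Fin q) E), WellFormed G →
    IsNarrow E (fun m => 4 * (m + extra G) + 2 * q) n (∑ v ∈ Finset.range n, load G v)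
      (aeval (fun a => gateC n e G (J a)) P)

/-- SMA. The generator hits all small polynomials.  (HI2, CIQ, DET; `IsNarrow` is monotone in `s`.) -/
def SmaStmt : Prop :=
  ∀ (E : Type) [Field E] [CharZero E] (n R T : ℕ), 1 ≤ T →
    ∀ F : MvPolynomial ℕ E, IsSmall E n R T F → F ≠ 0 →
      ∃ (c y z : Fin R → E) (ξ : Fin T → E), eval (gen n c y z ξ) F ≠ 0

/-- PRD. Products.  (The polynomials `F(gen)` in the seeds are not zero, so their product is not zero.) -/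
def PrdStmt : Prop :=
  ∀ (E : Type) [Field E] [CharZero E] (n R T : ℕ) (P : MvPolynomial ℕ E → Prop),
    (∀ F, P F → F ≠ 0 → ∃ (c y z : Fin R → E) (ξ : Fin T → E), eval (gen n c y z ξ) F ≠ 0) →
    ∀ S : List (MvPolynomial ℕ E), (∀ F ∈ S, P F) → S.prod ≠ 0 →
      ∃ (c y z : Fin R → E) (ξ : Fin T → E), eval (gen n c y z ξ) S.prod ≠ 0

/-- IH2. A small integer point on the generator where a factor does not vanish.  (As IHT; the degree of
the coordinates in each seed is at most `n T`.) -/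
def Ih2Stmt : Prop :=
  ∀ (E : Type) [Field E] [CharZero E] (n D R T : ℕ) (P : MvPolynomial ℕ ℤ), P.totalDegree ≤ D →
    1 ≤ T → ∀ Q : MvPolynomial ℕ E,
    (∃ (c y z : Fin R → E) (ξ : Fin T → E), eval (gen n c y z ξ) Q ≠ 0) →
    map (Int.castRingHom E) P ∣ Q →
    ∃ (c y z : Fin R → ℕ) (ξ : Fin T → ℕ), (∀ r, c r ≤ D * n * T) ∧ (∀ r, y r ≤ D * n * T) ∧
      (∀ r, z r ≤ D * n * T) ∧ (∀ j, ξ j ≤ D * n * T) ∧
      eval (gen n (fun r => (c r : ℤ)) (fun r => (y r : ℤ)) (fun r => (z r : ℤ))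
        (fun j => (ξ j : ℤ))) P ≠ 0

/-- SI2. The size of the coordinates. -/
def Si2Stmt : Prop :=
  ∀ (n D R T : ℕ) (c y z : Fin R → ℕ) (ξ : Fin T → ℕ), 1 ≤ T →
    (∀ r, c r ≤ D * n * T) → (∀ r, y r ≤ D * n * T) → (∀ r, z r ≤ D * n * T) →
    (∀ j, ξ j ≤ D * n * T) → ∀ i,
    (gen n (fun r => (c r : ℤ)) (fun r => (y r : ℤ)) (fun r => (z r : ℤ))
      (fun j => (ξ j : ℤ)) i).natAbs ≤ 2 ^ ((n + 5) * T * (D * n * T + n + R + T + 1))

/-- TS2. The test for circuits which compute divisors of products of a class that is hit. -/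
def Ts2Stmt : Prop :=
  ∀ (E : Type) [Field E] [CharZero E] (n R T : ℕ), 1 ≤ T → ∀ P : MvPolynomial ℕ E → Prop,
    (∀ S : List (MvPolynomial ℕ E), (∀ F ∈ S, P F) → S.prod ≠ 0 →
      ∃ (c y z : Fin R → E) (ξ : Fin T → E), eval (gen n c y z ξ) S.prod ≠ 0) →
    ∀ (D b : ℕ) (G : List Gate), WellFormed G →
      (poly G = 0 ∨ ((poly G).totalDegree ≤ D ∧ Pool.Agent.UO.length (poly G) ≤ 2 ^ b ∧
        ∃ S : List (MvPolynomial ℕ E), (∀ F ∈ S, P F) ∧ S.prod ≠ 0 ∧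
          map (Int.castRingHom E) (poly G) ∣ S.prod)) →
      (G ∈ ACIT ↔ ∀ p, p.Prime →
        p ≤ 64 * (b + D * ((n + 5) * T * (D * n * T + n + R + T + 1)) + 1) ^ 2 →
        ∀ (c y z : Fin R → Fin (D * n * T + 1)) (ξ : Fin T → Fin (D * n * T + 1)),
          genValue n p (D * n * T + 1) R T c y z ξ G = 0)

/-- FM2. The test for formulas.  (SMA with `E = ℚ`, `m = r`, `q = 1`, `P = X 0`, `J = last gate`;
`T = 5 r + 2`, `R = 2 r - 1`, `D = r ^ 2`; IH2, DEG, VAL, SI2.) -/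
def Fm2Stmt : Prop :=
  ∀ (n r : ℕ) (G : List Gate), WellFormed G → extra G = 0 → (∀ v, Gate.var v ∈ G → v < n) → 1 ≤ r →
    ∑ v ∈ Finset.range n, load G v ≤ r ^ 2 →
    (G ∈ ACIT ↔ ∀ (c y z : Fin (2 * r - 1) → Fin (r ^ 2 * n * (5 * r + 2) + 1))
      (ξ : Fin (5 * r + 2) → Fin (r ^ 2 * n * (5 * r + 2) + 1)),
      out (gen n (fun s => ((c s : ℕ) : ℤ)) (fun s => ((y s : ℕ) : ℤ)) (fun s => ((z s : ℕ) : ℤ))
        (fun j => ((ξ j : ℕ) : ℤ))) G = 0) ∧
    ∀ (c y z : Fin (2 * r - 1) → Fin (r ^ 2 * n * (5 * r + 2) + 1))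
      (ξ : Fin (5 * r + 2) → Fin (r ^ 2 * n * (5 * r + 2) + 1)),
      ∀ a ∈ values (gen n (fun s => ((c s : ℕ) : ℤ)) (fun s => ((y s : ℕ) : ℤ))
        (fun s => ((z s : ℕ) : ℤ)) (fun j => ((ξ j : ℕ) : ℤ))) G,
        a.natAbs ≤ 2 ^ (2 * G.length *
          ((n + 5) * (5 * r + 2) * (r ^ 2 * n * (5 * r + 2) + n + (2 * r - 1) + (5 * r + 2) + 1) + 1))

end Pool.Agent.SXF
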